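import Mathlib

set_option autoImplicit false

namespace Pool.Agent.Results.MP_faa006_lc.NotDefinable

/-- Terms over the signature 0, 1, ⊥, -, +, ·, ÷ with variables indexed by ℕ. -/
inductive Tm : Type
  | var : ℕ → Tm
  | zero : Tm
  | one : Tm
  | bot : Tm
  | neg : Tm → Tm
  | add : Tm → Tm → Tm
  | mul : Tm → Tm → Tm
  | div : Tm → Tm → Tm

open Classical in
/-- Value of a term in Enl_⊥(R_÷), whose universe is Option R with none as ⊥. -/
noncomputable def Tm.eval {R : Type} [CommRing R] (v : ℕ → Option R) : Tm → Option R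
  | .var n => v n
  | .zero => some 0
  | .one => some 1
  | .bot => none
  | .neg s => (s.eval v).map (fun x => -x)
  | .add s t => (s.eval v).bind (fun x => (t.eval v).map (fun y => x + y))
  | .mul s t => (s.eval v).bind (fun x => (t.eval v).map (fun y => x * y))
  | .div s t => (s.eval v).bind (fun x => (t.eval v).bind (fun y =>
      if IsUnit y then some (x * Ring.inverse y) else none))

/-- The conditional equation with premises hyps and conclusion e holds in Enl_⊥(R_÷). -/
def Valid (R : Type) [CommRing R] (hyps : List (Tm × Tm)) (e : Tm × Tm) : Prop :=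
  ∀ v : ℕ → Option R, (∀ h ∈ hyps, h.1.eval v = h.2.eval v) → e.1.eval v = e.2.eval v

lemma eval_map {R S : Type} [CommRing R] [CommRing S] (f : R →+* S)
    (hf : ∀ y, IsUnit (f y) → IsUnit y) (v : ℕ → Option R) (t : Tm) :
    t.eval (fun n => (v n).map f) = (t.eval v).map f := by
  induction t with
  | var n => rfl
  | zero => simp [Tm.eval]
  | one => simp [Tm.eval]
  | bot => rfl
  | neg s ih => simp only [Tm.eval, ih]; cases s.eval v <;> simp
  | add s t ih ih' => simp only [Tm.eval, ih, ih']; cases s.eval v <;> cases t.eval v <;> simp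
  | mul s t ih ih' => simp only [Tm.eval, ih, ih']; cases s.eval v <;> cases t.eval v <;> simp
  | div s t ih ih' =>
    simp only [Tm.eval, ih, ih']
    cases s.eval v with
    | none => simp
    | some x =>
      cases t.eval v with
      | none => simp
      | some y =>
        by_cases hy : IsUnit y
        · obtain ⟨u, rfl⟩ := hy
          have h1 : IsUnit (f u) := u.isUnit.map f
          have h2 : Ring.inverse (f u) = f (↑u⁻¹) := by
            have := Ring.inverse_unit (Units.map (f : R →* S) u)
            simpa using this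
          simp [h1, h2]
        · have h1 : ¬ IsUnit (f y) := fun h => hy (hf y h)
          simp [hy, h1]

open PowerSeries

noncomputable def A : Subring (ℚ⟦X⟧ × ℚ⟦X⟧) :=
  RingHom.eqLocus (constantCoeff.comp (RingHom.fst _ _)) (constantCoeff.comp (RingHom.snd _ _))

lemma A_unit (y : A) (h : constantCoeff y.1.1 ≠ 0) : IsUnit y := by
  have e : constantCoeff y.1.1 = constantCoeff y.1.2 := y.2
  have h' : constantCoeff y.1.2 ≠ 0 := e ▸ h
  refine IsUnit.of_mul_eq_one (⟨(y.1.1⁻¹, y.1.2⁻¹), ?_⟩ : A) ?_
  · show constantCoeff (y.1.1⁻¹) = constantCoeff (y.1.2⁻¹)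
    rw [constantCoeff_inv, constantCoeff_inv, e]
  · apply Subtype.ext
    apply Prod.ext
    · exact PowerSeries.mul_inv_cancel _ h
    · exact PowerSeries.mul_inv_cancel _ h'

theorem result : ∃ (R : Type) (_ : CommRing R), (∃ a b : R, a ≠ 0 ∧ b ≠ 0 ∧ a * b = 0) ∧
    ∀ (hyps : List (Tm × Tm)) (e : Tm × Tm),
      (∀ (D : Type) [CommRing D] [IsDomain D], Valid D hyps e) → Valid R hyps e := by
  refine ⟨A, inferInstance, ⟨⟨(X, 0), ?_⟩, ⟨(0, X), ?_⟩, ?_, ?_, ?_⟩, ?_⟩
  · show constantCoeff (X : ℚ⟦X⟧) = constantCoeff (0 : ℚ⟦X⟧)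
    simp
  · show constantCoeff (0 : ℚ⟦X⟧) = constantCoeff (X : ℚ⟦X⟧)
    simp
  · intro h
    exact X_ne_zero (congrArg (fun z : A => z.1.1) h)
  · intro h
    exact X_ne_zero (congrArg (fun z : A => z.1.2) h)
  · apply Subtype.ext
    simp
  · intro hyps e hD v hv
    let p1 : A →+* ℚ⟦X⟧ := (RingHom.fst _ _).comp A.subtype
    let p2 : A →+* ℚ⟦X⟧ := (RingHom.snd _ _).comp A.subtype
    have h1 : ∀ y, IsUnit (p1 y) → IsUnit y := fun y h =>
      A_unit y (isUnit_constantCoeff _ h).ne_zero
    have h2 : ∀ y, IsUnit (p2 y) → IsUnit y := fun y h => by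
      have e : constantCoeff y.1.1 = constantCoeff y.1.2 := y.2
      exact A_unit y (e ▸ (isUnit_constantCoeff _ h).ne_zero)
    have a1 := hD ℚ⟦X⟧ (fun n => (v n).map p1) (fun h hh => by
      rw [eval_map p1 h1, eval_map p1 h1, hv h hh])
    have a2 := hD ℚ⟦X⟧ (fun n => (v n).map p2) (fun h hh => by
      rw [eval_map p2 h2, eval_map p2 h2, hv h hh])
    rw [eval_map p1 h1, eval_map p1 h1] at a1
    rw [eval_map p2 h2, eval_map p2 h2] at a2
    revert a1 a2
    cases e.1.eval v with
    | none => cases e.2.eval v <;> simp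
    | some x =>
      cases e.2.eval v with
      | none => simp
      | some y =>
        intro a1 a2
        simp only [Option.map_some, Option.some.injEq] at a1 a2 ⊢
        exact Subtype.ext (Prod.ext a1 a2)

end Pool.Agent.Results.MP_faa006_lc.NotDefinable
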